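import Pool.Agent.PFS.Stmts

/-!
# PFS, rows FRZ and NCL
-/

set_option autoImplicit false

open Matrix Filter Topology

namespace Pool.Agent.PFS.H32

open Pool.Agent.PFS

theorem frz : FrzStmt := by
  intro n C hC ι _ w hw
  have hinj : Function.Injective (Fintype.linearCombination ℝ w) :=
    linearIndependent_iff_injective_fintypeLinearCombination.1 hw
  have hT : ∀ c : ι → ℝ, Fintype.linearCombination ℝ w c = ∑ i, c i • w i :=
    fun c => rfl
  have hemb : IsClosedEmbedding (Fintype.linearCombination ℝ w) :=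
    LinearMap.isClosedEmbedding_of_injective (LinearMap.ker_eq_bot.2 hinj)
  have hcl : IsClosed {c : ι → ℝ | ∀ i, 0 ≤ c i} := by
    have h1 : {c : ι → ℝ | ∀ i, 0 ≤ c i} = ⋂ i, {c : ι → ℝ | 0 ≤ c i} := by
      ext c; simp
    rw [h1]
    exact isClosed_iInter fun i => isClosed_le continuous_const (continuous_apply i)
  have hclI : IsClosed (Fintype.linearCombination ℝ w '' {c : ι → ℝ | ∀ i, 0 ≤ c i}) :=
    hemb.isClosedMap _ hcl
  have hsub : closure (PosCone w) ⊆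
      Fintype.linearCombination ℝ w '' {c : ι → ℝ | ∀ i, 0 ≤ c i} := by
    apply closure_minimal _ hclI
    rintro y ⟨c, hc, rfl⟩
    exact ⟨c, fun i => (hc i).le, rfl⟩
  constructor
  · intro h
    refine ⟨?_, ?_⟩
    · rintro y ⟨c, hc, rfl⟩
      exact h.pos c hc
    · rintro y ⟨hy, hyC⟩
      obtain ⟨c, hc, rfl⟩ := hsub hy
      refine ⟨c, fun i => ?_, rfl⟩
      refine lt_of_le_of_ne (hc i) ?_
      intro h0
      exact h.bd c hc ⟨i, h0.symm⟩ hyC
  · rintro ⟨h1, h2⟩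
    refine ⟨fun c hc => h1 ⟨c, hc, rfl⟩, ?_⟩
    rintro c hc ⟨i, hi⟩ hmem
    have ht : Tendsto (fun m : ℕ => ∑ j, (c j + 1 / ((m : ℝ) + 1)) • w j) atTop
        (𝓝 (∑ j, (c j + 0) • w j)) := by
      refine tendsto_finsetSum _ fun j _ => ?_
      exact (tendsto_const_nhds.add tendsto_one_div_add_atTop_nhds_zero_nat).smul_const _
    simp only [add_zero] at ht
    have hcl' : ∑ j, c j • w j ∈ closure (PosCone w) := by
      refine mem_closure_of_tendsto ht (Eventually.of_forall fun m => ?_)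
      refine ⟨fun j => c j + 1 / ((m : ℝ) + 1), fun j => ?_, rfl⟩
      have h3 : (0 : ℝ) < 1 / ((m : ℝ) + 1) := by positivity
      linarith [hc j]
    obtain ⟨c', hc', he⟩ := h2 ⟨hcl', hmem⟩
    have h3 : c = c' := hinj he
    have h4 := hc' i
    rw [← h3, hi] at h4
    exact lt_irrefl _ h4

theorem ncl (lin : LinStmt) : NclStmt := by
  classical
  intro n C hC ι _ x w p p0 M hw hx hxw hp0 hp hfreq
  have hne : ∀ i, w i ≠ 0 := fun i => (lin n C hC ι w hw).ne_zero i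
  obtain ⟨φ, hφ, hnear⟩ := Filter.extraction_of_frequently_atTop hfreq
  choose c hc0 hc1 hc2 using hnear
  obtain ⟨B, hB, hBn⟩ := hC.normal
  have hcc : IsClosed (closure C) := isClosed_closure
  -- bound for the coefficients
  have hle : ∀ m i, M • p (φ m) - c m i • x (φ m) i ∈ closure C := by
    intro m i
    have h1 : ∑ j ∈ Finset.univ.erase i, c m j • x (φ m) j ∈ closure C :=
      hC.cl_sum fun j _ => hC.cl_smul (hx _ _) (hc0 m j).le
    have h2 := hC.cl_add (hc2 m) h1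
    have h3 : M • p (φ m) - ∑ j, c m j • x (φ m) j +
        ∑ j ∈ Finset.univ.erase i, c m j • x (φ m) j = M • p (φ m) - c m i • x (φ m) i := by
      rw [← Finset.add_sum_erase Finset.univ (fun j => c m j • x (φ m) j) (Finset.mem_univ i)]
      abel
    rwa [h3] at h2
  have hbd : ∀ m i, c m i * ‖x (φ m) i‖ ≤ B * (|M| * ‖p (φ m)‖) := by
    intro m i
    have h1 := hBn _ _ (hC.cl_smul (hx (φ m) i) (hc0 m i).le) (hle m i)
    rwa [norm_smul, norm_smul, Real.norm_eq_abs, Real.norm_eq_abs, abs_of_pos (hc0 m i)] at h1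
  have hpt : Tendsto (fun m => p (φ m)) atTop (𝓝 p0) := hp.comp hφ.tendsto_atTop
  have hxt : ∀ i, Tendsto (fun m => x (φ m) i) atTop (𝓝 (w i)) :=
    fun i => (hxw i).comp hφ.tendsto_atTop
  have hev : ∀ᶠ m in atTop, c m ∈ Set.pi Set.univ
      (fun i => Set.Icc (0 : ℝ) (2 * (B * (|M| * (‖p0‖ + 1))) / ‖w i‖)) := by
    have h1 : ∀ᶠ m in atTop, ‖p (φ m)‖ < ‖p0‖ + 1 :=
      hpt.norm.eventually (gt_mem_nhds (by linarith))
    have h2 : ∀ᶠ m in atTop, ∀ i, ‖w i‖ / 2 < ‖x (φ m) i‖ := by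
      rw [eventually_all]
      intro i
      have h3 : 0 < ‖w i‖ := norm_pos_iff.2 (hne i)
      exact (hxt i).norm.eventually (lt_mem_nhds (by linarith))
    filter_upwards [h1, h2] with m hm1 hm2
    intro i _
    refine ⟨(hc0 m i).le, ?_⟩
    have h3 : 0 < ‖w i‖ := norm_pos_iff.2 (hne i)
    rw [le_div_iff₀ h3]
    have h4 := hbd m i
    have h5 : c m i * (‖w i‖ / 2) ≤ c m i * ‖x (φ m) i‖ :=
      mul_le_mul_of_nonneg_left (hm2 i).le (hc0 m i).le
    have h6 : B * (|M| * ‖p (φ m)‖) ≤ B * (|M| * (‖p0‖ + 1)) := by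
      have := abs_nonneg M
      gcongr
    linarith
  have hK : IsCompact (Set.pi Set.univ
      (fun i => Set.Icc (0 : ℝ) (2 * (B * (|M| * (‖p0‖ + 1))) / ‖w i‖))) :=
    isCompact_univ_pi fun i => isCompact_Icc
  obtain ⟨a, ha, ψ, hψ, hlim⟩ := hK.tendsto_subseq' hev.frequently
  have ha0 : ∀ i, 0 ≤ a i := fun i => (ha i (Set.mem_univ i)).1
  have hsum : Tendsto (fun m => ∑ i, c (ψ m) i • x (φ (ψ m)) i) atTop (𝓝 (∑ i, a i • w i)) := by
    refine tendsto_finsetSum _ fun i _ => ?_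
    have h1 : Tendsto (fun m => c (ψ m) i) atTop (𝓝 (a i)) :=
      (tendsto_pi_nhds.1 hlim) i
    exact h1.smul ((hxt i).comp hψ.tendsto_atTop)
  have hp' : Tendsto (fun m => p (φ (ψ m))) atTop (𝓝 p0) := hpt.comp hψ.tendsto_atTop
  have g1 : (∑ i, a i • w i) - p0 ∈ closure C :=
    hcc.mem_of_tendsto (hsum.sub hp') (Eventually.of_forall fun m => hc1 (ψ m))
  have g2 : M • p0 - ∑ i, a i • w i ∈ closure C :=
    hcc.mem_of_tendsto ((hp'.const_smul M).sub hsum) (Eventually.of_forall fun m => hc2 (ψ m))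
  have g3 : ∑ i, a i • w i ∈ C := hC.mem_of_le hp0 g1
  refine ⟨a, fun i => ?_, g1, g2⟩
  refine lt_of_le_of_ne (ha0 i) ?_
  intro h0
  exact hw.bd a ha0 ⟨i, h0.symm⟩ g3

end Pool.Agent.PFS.H32
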