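import Pool.Agent.Helper37_PFS.Stmts3

/-!
# PFS, row CD1 (the codimension one case)
-/

set_option autoImplicit false

open Matrix Filter Topology

namespace Pool.Agent.PFS.H32

open Pool.Agent.PFS

section face

variable {n : ℕ} {C : Set (V n)}

theorem face_cl (hC : PCone C) {x y : V n} (hx : x ∈ closure C) (hy : y ∈ Face C x) :
    y ∈ closure C := by
  obtain ⟨ε, hε, _, h2⟩ := hy
  exact hC.cl_of_le (hC.cl_smul hx hε.le) h2

theorem face_self (hC : PCone C) {x : V n} : x ∈ Face C x :=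
  ⟨1, one_pos, by simpa using hC.zero_cl, by simpa using hC.zero_cl⟩

theorem face_add (hC : PCone C) {x a b : V n} (hx : x ∈ closure C) (ha : a ∈ Face C x)
    (hb : b ∈ Face C x) : a + b ∈ Face C x := by
  have hac := face_cl hC hx ha
  have hbc := face_cl hC hx hb
  obtain ⟨ε, hε, h1, h2⟩ := ha
  obtain ⟨δ, hδ, h3, h4⟩ := hb
  have hm : 0 < min ε δ := lt_min hε hδ
  refine ⟨min ε δ / 2, by positivity, ?_, ?_⟩
  · have h5 : (1 / 2 : ℝ) • (x - ε • a) + ((ε - min ε δ) / 2) • a +
        ((1 / 2 : ℝ) • (x - δ • b) + ((δ - min ε δ) / 2) • b) ∈ closure C :=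
      hC.cl_add
        (hC.cl_add (hC.cl_smul h1 (by norm_num))
          (hC.cl_smul hac (by linarith [min_le_left ε δ])))
        (hC.cl_add (hC.cl_smul h3 (by norm_num))
          (hC.cl_smul hbc (by linarith [min_le_right ε δ])))
    have h6 : (1 / 2 : ℝ) • (x - ε • a) + ((ε - min ε δ) / 2) • a +
        ((1 / 2 : ℝ) • (x - δ • b) + ((δ - min ε δ) / 2) • b) =
        x - (min ε δ / 2) • (a + b) := by
      module
    rwa [h6] at h5
  · have h5 : (a - ε • x) + b + (ε - min ε δ / 2) • x ∈ closure C :=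
      hC.cl_add (hC.cl_add h2 hbc) (hC.cl_smul hx (by linarith [min_le_left ε δ]))
    have h6 : (a - ε • x) + b + (ε - min ε δ / 2) • x = a + b - (min ε δ / 2) • x := by
      module
    rwa [h6] at h5

theorem face_smul (hC : PCone C) {x a : V n} (hx : x ∈ closure C) (ha : a ∈ Face C x)
    {t : ℝ} (ht : 0 < t) : t • a ∈ Face C x := by
  have hac := face_cl hC hx ha
  obtain ⟨ε, hε, h1, h2⟩ := ha
  have hm : 0 < min (ε / t) (ε * t) := lt_min (by positivity) (by positivity)
  refine ⟨min (ε / t) (ε * t), hm, ?_, ?_⟩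
  · have h3 : min (ε / t) (ε * t) * t ≤ ε := by
      have := min_le_left (ε / t) (ε * t)
      rwa [le_div_iff₀ ht] at this
    have h5 : (x - ε • a) + (ε - min (ε / t) (ε * t) * t) • a ∈ closure C :=
      hC.cl_add h1 (hC.cl_smul hac (by linarith))
    have h6 : (x - ε • a) + (ε - min (ε / t) (ε * t) * t) • a =
        x - min (ε / t) (ε * t) • t • a := by
      module
    rwa [h6] at h5
  · have h5 : t • (a - ε • x) + (ε * t - min (ε / t) (ε * t)) • x ∈ closure C :=
      hC.cl_add (hC.cl_smul h2 ht.le) (hC.cl_smul hx (by linarith [min_le_right (ε / t) (ε * t)]))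
    have h6 : t • (a - ε • x) + (ε * t - min (ε / t) (ε * t)) • x =
        t • a - min (ε / t) (ε * t) • x := by
      module
    rwa [h6] at h5

theorem span_face (hC : PCone C) {x v : V n} (hx : x ∈ closure C)
    (hv : v ∈ Submodule.span ℝ (Face C x)) :
    ∃ a ∈ Face C x, ∃ b ∈ Face C x, v = a - b := by
  induction hv using Submodule.span_induction with
  | mem v hv => exact ⟨v + x, face_add hC hx hv (face_self hC), x, face_self hC, by abel⟩
  | zero => exact ⟨x, face_self hC, x, face_self hC, by simp⟩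
  | add u v _ _ h1 h2 =>
    obtain ⟨a, ha, b, hb, rfl⟩ := h1
    obtain ⟨a', ha', b', hb', rfl⟩ := h2
    exact ⟨a + a', face_add hC hx ha ha', b + b', face_add hC hx hb hb', by abel⟩
  | smul t v _ h =>
    obtain ⟨a, ha, b, hb, rfl⟩ := h
    rcases lt_trichotomy t 0 with ht | ht | ht
    · exact ⟨(-t) • b, face_smul hC hx hb (by linarith), (-t) • a,
        face_smul hC hx ha (by linarith), by module⟩
    · exact ⟨x, face_self hC, x, face_self hC, by simp [ht]⟩
    · exact ⟨t • a, face_smul hC hx ha ht, t • b, face_smul hC hx hb ht, by module⟩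

theorem span_face_not (hC : PCone C) {x v : V n} (hx : x ∈ closure C) (hxC : x ∉ C)
    (hv : v ∈ Submodule.span ℝ (Face C x)) : v ∉ C := by
  intro hvC
  obtain ⟨a, ha, b, hb, rfl⟩ := span_face hC hx hv
  have h1 : a ∈ C := by
    have := hC.add_cl hvC (face_cl hC hx hb)
    rwa [sub_add_cancel] at this
  obtain ⟨ε, hε, h2, _⟩ := ha
  exact hxC (hC.mem_of_le (hC.smul a h1 ε hε) h2)

end face

section limit

theorem clm_app {n : ℕ} {A : ℕ → (V n →L[ℝ] V n)} {A' : V n →L[ℝ] V n}
    (h : Tendsto A atTop (𝓝 A')) {x : ℕ → V n} {x' : V n} (hx : Tendsto x atTop (𝓝 x')) :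
    Tendsto (fun m => A m (x m)) atTop (𝓝 (A' x')) :=
  ((isBoundedBilinearMap_apply (𝕜 := ℝ) (E := V n) (F := V n)).continuous.tendsto
    (A', x')).comp (h.prodMk_nhds hx)

/-- pointwise bounded pairs of mutually inverse operators have a convergent subsequence -/
theorem pair_limit {n : ℕ} (A B : ℕ → (V n →L[ℝ] V n)) (hAB : ∀ m v, A m (B m v) = v)
    (hBA : ∀ m v, B m (A m v) = v) (hA : ∀ v, ∃ M : ℝ, ∀ m, ‖A m v‖ ≤ M)
    (hB : ∀ v, ∃ M : ℝ, ∀ m, ‖B m v‖ ≤ M) :
    ∃ (ψ : ℕ → ℕ) (A' B' : V n →L[ℝ] V n), StrictMono ψ ∧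
      (∀ v, Tendsto (fun m => A (ψ m) v) atTop (𝓝 (A' v))) ∧
      (∀ v, Tendsto (fun m => B (ψ m) v) atTop (𝓝 (B' v))) ∧
      (∀ v, A' (B' v) = v) ∧ (∀ v, B' (A' v) = v) := by
  obtain ⟨MA, hMA⟩ := banach_steinhaus hA
  obtain ⟨MB, hMB⟩ := banach_steinhaus hB
  have : ProperSpace ((V n →L[ℝ] V n) × (V n →L[ℝ] V n)) := FiniteDimensional.proper ℝ _
  have hbd : Bornology.IsBounded (Metric.closedBall (0 : (V n →L[ℝ] V n) × (V n →L[ℝ] V n))
      (max MA MB)) := Metric.isBounded_closedBall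
  obtain ⟨⟨A', B'⟩, _, ψ, hψ, hlim⟩ := tendsto_subseq_of_bounded hbd
    (x := fun m => (A m, B m)) (fun m => by
      rw [Metric.mem_closedBall, dist_zero_right, Prod.norm_def]
      exact max_le_max (hMA m) (hMB m))
  have h1 : Tendsto (fun m => A (ψ m)) atTop (𝓝 A') := (continuous_fst.tendsto _).comp hlim
  have h2 : Tendsto (fun m => B (ψ m)) atTop (𝓝 B') := (continuous_snd.tendsto _).comp hlim
  have h3 : ∀ v, Tendsto (fun m => A (ψ m) v) atTop (𝓝 (A' v)) :=
    fun v => clm_app h1 tendsto_const_nhds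
  have h4 : ∀ v, Tendsto (fun m => B (ψ m) v) atTop (𝓝 (B' v)) :=
    fun v => clm_app h2 tendsto_const_nhds
  refine ⟨ψ, A', B', hψ, h3, h4, fun v => ?_, fun v => ?_⟩
  · have h5 : Tendsto (fun m => A (ψ m) (B (ψ m) v)) atTop (𝓝 (A' (B' v))) :=
      clm_app h1 (h4 v)
    simp only [hAB] at h5
    exact (tendsto_nhds_unique h5 tendsto_const_nhds)
  · have h5 : Tendsto (fun m => B (ψ m) (A (ψ m) v)) atTop (𝓝 (B' (A' v))) :=
      clm_app h2 (h3 v)
    simp only [hBA] at h5
    exact (tendsto_nhds_unique h5 tendsto_const_nhds)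

end limit

section small

variable {n : ℕ} {C : Set (V n)}

/-- the case of a small span -/
theorem face_small (lin : LinStmt) (hC : PCone C) {K : ℕ} {w : Fin K → V n} (hw : PES C w)
    (hwc : ∀ i, w i ∈ closure C) (l : Fin K)
    (hwL : ∀ i, i ≠ l → w i ∈ Submodule.span ℝ (Face C (∑ i ∈ Finset.univ.erase l, w i)))
    (hr : Module.finrank ℝ (Submodule.span ℝ (Face C (∑ i ∈ Finset.univ.erase l, w i))) ≤ K - 1)
    {y : V n} (hy : y ∈ Face C (∑ i ∈ Finset.univ.erase l, w i)) :
    ∃ c : Fin K → ℝ, c l = 0 ∧ (∀ i, i ≠ l → 0 < c i) ∧ y = ∑ i, c i • w i := by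
  classical
  have hli := lin n C hC (Fin K) w hw
  have hxe : ∑ i ∈ Finset.univ.erase l, w i = ∑ i, (if i = l then (0 : ℝ) else 1) • w i := by
    rw [← Finset.add_sum_erase Finset.univ _ (Finset.mem_univ l)]
    rw [if_pos rfl, zero_smul, zero_add]
    refine Finset.sum_congr rfl fun i hi => ?_
    rw [if_neg (Finset.ne_of_mem_erase hi), one_smul]
  -- the span
  have hli' : LinearIndependent ℝ (fun i : {i : Fin K // i ≠ l} => w i) :=
    hli.comp _ Subtype.val_injective
  have hcard : Fintype.card {i : Fin K // i ≠ l} = K - 1 := by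
    rw [Fintype.card_subtype_compl, Fintype.card_fin, Fintype.card_subtype_eq]
  have hle : Submodule.span ℝ (Set.range (fun i : {i : Fin K // i ≠ l} => w i)) ≤
      Submodule.span ℝ (Face C (∑ i ∈ Finset.univ.erase l, w i)) := by
    rw [Submodule.span_le]
    rintro _ ⟨⟨i, hi⟩, rfl⟩
    exact hwL i hi
  have heq := Submodule.eq_of_le_of_finrank_le hle (by
    rw [finrank_span_eq_card hli', hcard]; exact hr)
  have hy1 : y ∈ Submodule.span ℝ (Set.range (fun i : {i : Fin K // i ≠ l} => w i)) := by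
    rw [heq]; exact Submodule.subset_span hy
  rw [Submodule.mem_span_range_iff_exists_fun] at hy1
  obtain ⟨a0, ha0⟩ := hy1
  obtain ⟨a, hal, hya⟩ : ∃ a : Fin K → ℝ, a l = 0 ∧ y = ∑ i, a i • w i := by
    refine ⟨fun i => if h : i ≠ l then a0 ⟨i, h⟩ else 0, by simp, ?_⟩
    rw [← Finset.add_sum_erase Finset.univ _ (Finset.mem_univ l)]
    rw [Finset.sum_subtype (Finset.univ.erase l) (p := fun i => i ≠ l) (by simp)]
    beta_reduce
    rw [dif_neg (by simp), zero_smul, zero_add, ← ha0]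
    refine Finset.sum_congr rfl fun i _ => ?_
    rw [dif_pos i.2]
  refine ⟨a, hal, ?_, hya⟩
  intro i0 hi0
  by_contra hneg
  push Not at hneg
  obtain ⟨ε, hε, _, h2⟩ := hy
  have hA : ∀ i, |a i| ≤ ∑ j, |a j| := fun i =>
    Finset.single_le_sum (f := fun j => |a j|) (fun j _ => abs_nonneg _) (Finset.mem_univ i)
  set A' : ℝ := ∑ j, |a j| with hA'
  have hA0 : 0 ≤ A' := Finset.sum_nonneg fun j _ => abs_nonneg _
  refine hw.bd (fun i => if i = l then ε else if i = i0 then 0 else a i + A') ?_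
    ⟨i0, by simp [hi0]⟩ ?_
  · intro i
    by_cases h1 : i = l
    · simp [h1, hε.le]
    · by_cases h3 : i = i0
      · simp [h3, hi0]
      · simp only [h1, h3, if_false]
        have := hA i
        have := neg_abs_le (a i)
        linarith
  · have h3 : ε • ∑ i, w i ∈ C := by
      refine hC.smul _ ?_ ε hε
      have := hw.pos (fun _ => 1) (fun _ => one_pos)
      simpa using this
    have h4 : (y - ε • ∑ i ∈ Finset.univ.erase l, w i) +
        ∑ i, (if i = l then (0 : ℝ) else if i = i0 then - a i else A') • w i ∈ closure C := by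
      refine hC.cl_add h2 (hC.cl_sum fun i _ => hC.cl_smul (hwc i) ?_)
      by_cases h1 : i = l
      · simp [h1]
      · by_cases h3 : i = i0
        · rw [if_neg h1, if_pos h3, h3]; linarith
        · rw [if_neg h1, if_neg h3]; exact hA0
    refine hC.mem_of_le h3 ?_
    have h5 : ∑ i, (if i = l then ε else if i = i0 then 0 else a i + A') • w i -
        ε • ∑ i, w i = (y - ε • ∑ i ∈ Finset.univ.erase l, w i) +
        ∑ i, (if i = l then (0 : ℝ) else if i = i0 then - a i else A') • w i := by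
      rw [hxe, hya, Finset.smul_sum, Finset.smul_sum, ← Finset.sum_sub_distrib,
        ← Finset.sum_sub_distrib, ← Finset.sum_add_distrib]
      refine Finset.sum_congr rfl fun i _ => ?_
      by_cases h1 : i = l
      · subst h1
        simp only [if_true, hal]
        module
      · by_cases h3 : i = i0
        · simp only [h3, if_true]
          rw [if_neg hi0, if_neg hi0, if_neg hi0]
          module
        · simp only [h1, h3, if_false]
          module
    rw [h5]
    exact h4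

end small

section large

variable {n : ℕ} {C : Set (V n)}

/-- the linear form -/
theorem form_large (hC : PCone C) {x u : V n} (hx : x ∈ closure C) (hxC : x ∉ C)
    (hxu : x + u ∈ C) {K : ℕ} (hn : n = K + 1)
    (hr : K ≤ Module.finrank ℝ (Submodule.span ℝ (Face C x))) :
    ∃ φ : V n →L[ℝ] ℝ, φ u = 1 ∧ (∀ v ∈ closure C, 0 ≤ φ v) ∧ (∀ a ∈ Face C x, φ a = 0) ∧
      (∀ v, φ v = 0 → v ∈ Submodule.span ℝ (Face C x)) := by
  have hxL : x ∈ Submodule.span ℝ (Face C x) := Submodule.subset_span (face_self hC)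
  have hu : u ∉ Submodule.span ℝ (Face C x) := by
    intro hu
    exact span_face_not hC hx hxC (Submodule.add_mem _ hxL hu) hxu
  obtain ⟨φ0, hφ0, hker⟩ := Submodule.exists_le_ker_of_notMem hu
  have hkt : LinearMap.ker φ0 < ⊤ := by
    rw [lt_top_iff_ne_top]
    intro h
    have h1 : u ∈ LinearMap.ker φ0 := by rw [h]; trivial
    exact hφ0 (LinearMap.mem_ker.1 h1)
  have hfk : Module.finrank ℝ (LinearMap.ker φ0) ≤ K := by
    have := Submodule.finrank_lt hkt.ne
    rw [Module.finrank_fin_fun] at this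
    omega
  have hkeq := Submodule.eq_of_le_of_finrank_le hker (hfk.trans hr)
  have hzero : ∀ v, φ0 v = 0 → v ∈ Submodule.span ℝ (Face C x) := by
    intro v hv
    rw [hkeq]; exact LinearMap.mem_ker.2 hv
  have hface : ∀ a ∈ Face C x, φ0 a = 0 := fun a ha =>
    LinearMap.mem_ker.1 (hker (Submodule.subset_span ha))
  have hC' : ∀ v ∈ C, 0 < (φ0 u)⁻¹ * φ0 v := by
    intro v hv
    by_contra hneg
    push Not at hneg
    have h1 : v + (-((φ0 u)⁻¹ * φ0 v)) • (x + u) ∈ C :=
      hC.add_cl hv (hC.cl_smul (subset_closure hxu) (by linarith))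
    refine span_face_not hC hx hxC (hzero _ ?_) h1
    rw [map_add, map_smul, map_add, hface x (face_self hC), smul_eq_mul]
    field_simp
    ring
  refine ⟨LinearMap.toContinuousLinearMap ((φ0 u)⁻¹ • φ0), ?_, ?_, ?_, ?_⟩
  · simp [hφ0]
  · intro v hv
    have hcl : IsClosed {v : V n | 0 ≤ (LinearMap.toContinuousLinearMap ((φ0 u)⁻¹ • φ0)) v} :=
      isClosed_le continuous_const (ContinuousLinearMap.continuous _)
    refine closure_minimal (fun v hv => ?_) hcl hv
    have := hC' v hv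
    simpa using this.le
  · intro a ha
    simp [hface a ha]
  · intro v hv
    refine hzero v ?_
    have h1 : (φ0 u)⁻¹ * φ0 v = 0 := by simpa using hv
    rcases mul_eq_zero.1 h1 with h2 | h2
    · exact absurd (inv_eq_zero.1 h2) hφ0
    · exact h2

/-- the zoomed pair of operators -/
theorem zoom_pair (zom : ZomStmt) {Γ : Subgroup (GL (Fin n) ℝ)} (h : CC C Γ) {x u : V n}
    (hx : x ∈ closure C) (hu : u ∈ closure C) (hpC : ∀ t : ℝ, 0 < t → x + t • u ∈ C)
    (hpH : ∀ t : ℝ, 0 < t → x + t • u ∈ Hull C Γ) (φ : V n →L[ℝ] ℝ) (hφu : φ u = 1)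
    (hφ0 : ∀ v ∈ closure C, 0 ≤ φ v) (hφF : ∀ a ∈ Face C x, φ a = 0)
    (hφL : ∀ v, φ v = 0 → v ∈ Submodule.span ℝ (Face C x)) :
    ∃ A B : V n →L[ℝ] V n, (∀ v, A (B v) = v) ∧ (∀ v, B (A v) = v) ∧ A u ∈ closure C ∧
      ∀ v ∈ closure C, 0 ≤ φ (B v) ∧ A (B v - φ (B v) • u) ∈ closure C := by
  have hC : PCone C := h.toPCone
  have hccl : IsClosed (closure C) := isClosed_closure
  have hφx : φ x = 0 := hφF x (face_self hC)
  obtain ⟨ψ0, g0, s0, q, hψ0, hg0, hs0, hq, hlim0⟩ := zom n C Γ h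
    (fun m => x + (1 / ((m : ℝ) + 1)) • u) (fun m => hpC _ (by positivity))
    (fun m => hpH _ (by positivity))
  obtain ⟨N, hN⟩ := eventually_atTop.1 (hC.squeeze hq hlim0 (M := 2) (by norm_num))
  -- shifted sequences
  set τ : ℕ → ℝ := fun m => 1 / ((ψ0 (m + N) : ℝ) + 1) with hτ
  set g : ℕ → GL (Fin n) ℝ := fun m => g0 (m + N) with hg
  set s : ℕ → ℝ := fun m => s0 (m + N) with hs
  have hτ0 : ∀ m, 0 < τ m := fun m => by positivity
  have hτ1 : ∀ m, τ m ≤ 1 := by
    intro m
    rw [hτ]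
    simp only
    rw [div_le_one (by positivity)]
    have : (0 : ℝ) ≤ (ψ0 (m + N) : ℝ) := by positivity
    linarith
  have hτt : Tendsto τ atTop (𝓝 0) := by
    have h1 : Tendsto (fun m => ψ0 (m + N)) atTop atTop :=
      hψ0.tendsto_atTop.comp (tendsto_add_atTop_nat N)
    exact tendsto_one_div_add_atTop_nhds_zero_nat.comp h1
  have hlim : Tendsto (fun m => s m • act (g m) (x + τ m • u)) atTop (𝓝 q) :=
    hlim0.comp (tendsto_add_atTop_nat N)
  have hsq : ∀ m, (2 : ℝ) • (s m • act (g m) (x + τ m • u)) - q ∈ closure C := fun m =>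
    subset_closure (hN (m + N) (by omega)).2
  have hgΓ : ∀ m, g m ∈ Γ := fun m => hg0 _
  have hs' : ∀ m, 0 < s m := fun m => hs0 _
  -- operators
  set G : ℕ → (V n →L[ℝ] V n) := fun m =>
    s m • LinearMap.toContinuousLinearMap (Matrix.mulVecLin (g m : Matrix (Fin n) (Fin n) ℝ))
    with hG
  set Gi : ℕ → (V n →L[ℝ] V n) := fun m =>
    (s m)⁻¹ • LinearMap.toContinuousLinearMap
      (Matrix.mulVecLin (((g m)⁻¹ : GL (Fin n) ℝ) : Matrix (Fin n) (Fin n) ℝ)) with hGi
  have hGa : ∀ m v, G m v = s m • act (g m) v := fun m v => rfl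
  have hGia : ∀ m v, Gi m v = (s m)⁻¹ • act (g m)⁻¹ v := fun m v => rfl
  have hGGi : ∀ m v, G m (Gi m v) = v := by
    intro m v
    rw [hGa, hGia, CC.act_smul, CC.act_act_inv, smul_smul, mul_inv_cancel₀ (hs' m).ne', one_smul]
  have hGiG : ∀ m v, Gi m (G m v) = v := by
    intro m v
    rw [hGa, hGia, CC.act_smul, CC.act_inv_act, smul_smul, inv_mul_cancel₀ (hs' m).ne', one_smul]
  have hGcl : ∀ m v, v ∈ closure C → G m v ∈ closure C := fun m v hv => by
    rw [hGa]; exact (h.sact_cl_iff (hgΓ m) (hs' m)).2 hv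
  have hGicl : ∀ m v, v ∈ closure C → Gi m v ∈ closure C := fun m v hv => by
    rw [hGia]; exact (h.sact_cl_iff (Γ.inv_mem (hgΓ m)) (inv_pos.2 (hs' m))).2 hv
  set D : ℝ → (V n →L[ℝ] V n) := fun t =>
    ContinuousLinearMap.id ℝ (V n) + (t - 1) • (φ.smulRight u) with hD
  have hDa : ∀ t v, D t v = v + ((t - 1) * φ v) • u := by
    intro t v
    simp [hD, smul_smul]
  have hφD : ∀ t v, φ (D t v) = t * φ v := by
    intro t v
    rw [hDa, map_add, map_smul, hφu, smul_eq_mul]
    ring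
  have hDD : ∀ a b v, a * b = 1 → D a (D b v) = v := by
    intro a b v hab
    rw [hDa a, hφD, hDa]
    have h1 : v + ((b - 1) * φ v) • u + ((a - 1) * (b * φ v)) • u =
        v + ((a * b - 1) * φ v) • u := by module
    rw [h1, hab]
    simp
  obtain ⟨Bn, hBn, hnorm⟩ := hC.normal
  -- boundedness
  have hpbd : ∃ R : ℝ, ∀ m, ‖G m (x + τ m • u)‖ ≤ R := by
    obtain ⟨R, hR⟩ := hlim.norm.bddAbove_range
    exact ⟨R, fun m => hR ⟨m, rfl⟩⟩
  obtain ⟨R, hR⟩ := hpbd
  have hR0 : 0 ≤ R := (norm_nonneg _).trans (hR 0)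
  have hsmall : ∀ (m : ℕ) (a : V n) (β : ℝ), 0 ≤ β → a ∈ closure C →
      β • (x + τ m • u) - a ∈ closure C → ‖G m a‖ ≤ Bn * (β * R) := by
    intro m a β hβ ha hle
    have h1 := hnorm (G m a) (G m (β • (x + τ m • u))) (hGcl m _ ha) (by
      rw [← map_sub]; exact hGcl m _ hle)
    rw [map_smul, norm_smul, Real.norm_of_nonneg hβ] at h1
    refine h1.trans ?_
    have := hR m
    gcongr
  have hAbd : ∀ v, ∃ M : ℝ, ∀ m, ‖((G m).comp (D (τ m))) v‖ ≤ M := by
    intro v
    have hv0 : φ (v - φ v • u) = 0 := by rw [map_sub, map_smul, hφu]; simp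
    obtain ⟨a, ha, b, hb, hab⟩ := span_face hC hx (hφL _ hv0)
    have hface : ∀ a ∈ Face C x, ∃ M : ℝ, ∀ m, ‖G m a‖ ≤ M := by
      intro a ha
      have hac := face_cl hC hx ha
      obtain ⟨ε, hε, h1, _⟩ := ha
      refine ⟨Bn * (ε⁻¹ * R), fun m => hsmall m a ε⁻¹ (inv_pos.2 hε).le hac ?_⟩
      have h2 : ε⁻¹ • (x - ε • a) + (ε⁻¹ * τ m) • u ∈ closure C :=
        hC.cl_add (hC.cl_smul h1 (inv_pos.2 hε).le)
          (hC.cl_smul hu (mul_pos (inv_pos.2 hε) (hτ0 m)).le)
      have h3 : ε⁻¹ • (x - ε • a) + (ε⁻¹ * τ m) • u = ε⁻¹ • (x + τ m • u) - a := by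
        rw [smul_sub, smul_smul, inv_mul_cancel₀ hε.ne', one_smul]
        module
      rwa [h3] at h2
    obtain ⟨Ma, hMa⟩ := hface a ha
    obtain ⟨Mb, hMb⟩ := hface b hb
    refine ⟨Ma + Mb + |φ v| * (Bn * (1 * R)), fun m => ?_⟩
    have h1 : ((G m).comp (D (τ m))) v = G m a - G m b + φ v • G m (τ m • u) := by
      rw [ContinuousLinearMap.comp_apply, hDa, ← map_sub, ← hab, ← map_smul, ← map_add]
      congr 1
      module
    rw [h1]
    refine (norm_add_le _ _).trans (add_le_add ((norm_sub_le _ _).trans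
      (add_le_add (hMa m) (hMb m))) ?_)
    rw [norm_smul, Real.norm_eq_abs]
    refine mul_le_mul_of_nonneg_left ?_ (abs_nonneg _)
    refine hsmall m _ 1 zero_le_one (hC.cl_smul hu (hτ0 m).le) ?_
    rw [one_smul, add_sub_cancel_right]
    exact hx
  have hBbd : ∀ v, ∃ M : ℝ, ∀ m, ‖((D (τ m)⁻¹).comp (Gi m)) v‖ ≤ M := by
    intro v
    obtain ⟨β1, hβ1, h1⟩ := hC.absorb hq v
    obtain ⟨β2, hβ2, h2⟩ := hC.absorb hq (-v)
    set β : ℝ := β1 + β2 with hβ
    have hβ0 : 0 < β := by positivity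
    have hqc : q ∈ closure C := subset_closure hq
    have h3 : β • q - v ∈ closure C := by
      have h4 : (β1 • q - v) + β2 • q ∈ closure C :=
        hC.cl_add (subset_closure h1) (hC.cl_smul hqc hβ2.le)
      have h5 : (β1 • q - v) + β2 • q = β • q - v := by rw [hβ]; module
      rwa [h5] at h4
    have h3' : β • q + v ∈ closure C := by
      have h4 : (β2 • q - -v) + β1 • q ∈ closure C :=
        hC.cl_add (subset_closure h2) (hC.cl_smul hqc hβ1.le)
      have h5 : (β2 • q - -v) + β1 • q = β • q + v := by rw [hβ]; module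
      rwa [h5] at h4
    -- bounds for u_m
    have h6 : ∀ m, (2 * β) • (x + τ m • u) - Gi m v ∈ closure C := by
      intro m
      have h7 : β • ((2 : ℝ) • (s m • act (g m) (x + τ m • u)) - q) + (β • q - v) ∈ closure C :=
        hC.cl_add (hC.cl_smul (hsq m) hβ0.le) h3
      have h8 := hGicl m _ h7
      have h9 : β • ((2 : ℝ) • (s m • act (g m) (x + τ m • u)) - q) + (β • q - v) =
          G m ((2 * β) • (x + τ m • u)) - v := by
        rw [map_smul, hGa]; module
      rwa [h9, map_sub, hGiG] at h8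
    have h6' : ∀ m, (2 * β) • (x + τ m • u) + Gi m v ∈ closure C := by
      intro m
      have h7 : β • ((2 : ℝ) • (s m • act (g m) (x + τ m • u)) - q) + (β • q + v) ∈ closure C :=
        hC.cl_add (hC.cl_smul (hsq m) hβ0.le) h3'
      have h8 := hGicl m _ h7
      have h9 : β • ((2 : ℝ) • (s m • act (g m) (x + τ m • u)) - q) + (β • q + v) =
          G m ((2 * β) • (x + τ m • u)) + v := by
        rw [map_smul, hGa]; module
      rwa [h9, map_add, hGiG] at h8
    have hpn : ∀ m, ‖x + τ m • u‖ ≤ ‖x‖ + ‖u‖ := by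
      intro m
      refine (norm_add_le _ _).trans (add_le_add le_rfl ?_)
      rw [norm_smul, Real.norm_of_nonneg (hτ0 m).le]
      exact mul_le_of_le_one_left (norm_nonneg _) (hτ1 m)
    have hun : ∀ m, ‖Gi m v‖ ≤ (Bn * (4 * β) + 2 * β) * (‖x‖ + ‖u‖) := by
      intro m
      have h7 := hnorm ((2 * β) • (x + τ m • u) + Gi m v) ((4 * β) • (x + τ m • u)) (h6' m) (by
        have h8 := h6 m
        have h9 : (4 * β) • (x + τ m • u) - ((2 * β) • (x + τ m • u) + Gi m v) =
            (2 * β) • (x + τ m • u) - Gi m v := by module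
        rwa [h9])
      rw [norm_smul, Real.norm_of_nonneg (by positivity : (0 : ℝ) ≤ 4 * β)] at h7
      have h8 : Gi m v = ((2 * β) • (x + τ m • u) + Gi m v) - (2 * β) • (x + τ m • u) := by
        abel
      have h9 : ‖Gi m v‖ ≤ ‖(2 * β) • (x + τ m • u) + Gi m v‖ + ‖(2 * β) • (x + τ m • u)‖ := by
        calc ‖Gi m v‖ = ‖((2 * β) • (x + τ m • u) + Gi m v) - (2 * β) • (x + τ m • u)‖ :=
              congrArg _ h8
          _ ≤ _ := norm_sub_le _ _
      rw [norm_smul (2 * β), Real.norm_of_nonneg (by positivity : (0 : ℝ) ≤ 2 * β)] at h9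
      have h10 := hpn m
      have h11 : Bn * (4 * β * ‖x + τ m • u‖) ≤ Bn * (4 * β * (‖x‖ + ‖u‖)) := by gcongr
      have h12 : 2 * β * ‖x + τ m • u‖ ≤ 2 * β * (‖x‖ + ‖u‖) := by gcongr
      calc ‖Gi m v‖ ≤ _ := h9
        _ ≤ Bn * (4 * β * (‖x‖ + ‖u‖)) + 2 * β * (‖x‖ + ‖u‖) := add_le_add (h7.trans h11) h12
        _ = _ := by ring
    have hφp : ∀ m, φ (x + τ m • u) = τ m := by
      intro m
      rw [map_add, map_smul, hφx, hφu]; simp
    have hφb : ∀ m, |φ (Gi m v)| ≤ 2 * β * τ m := by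
      intro m
      have h7 := hφ0 _ (h6 m)
      have h8 := hφ0 _ (h6' m)
      rw [map_sub, map_smul, hφp, smul_eq_mul] at h7
      rw [map_add, map_smul, hφp, smul_eq_mul] at h8
      rw [abs_le]
      constructor <;> linarith
    refine ⟨(Bn * (4 * β) + 2 * β) * (‖x‖ + ‖u‖) + 2 * β * ‖u‖, fun m => ?_⟩
    rw [ContinuousLinearMap.comp_apply, hDa]
    refine (norm_add_le _ _).trans (add_le_add (hun m) ?_)
    rw [norm_smul, Real.norm_eq_abs, abs_mul]
    refine mul_le_mul_of_nonneg_right ?_ (norm_nonneg _)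
    have h7 : |(τ m)⁻¹ - 1| ≤ (τ m)⁻¹ := by
      have h8 : 1 ≤ (τ m)⁻¹ := (one_le_inv₀ (hτ0 m)).2 (hτ1 m)
      rw [abs_of_nonneg (by linarith)]
      linarith
    calc |(τ m)⁻¹ - 1| * |φ (Gi m v)| ≤ (τ m)⁻¹ * (2 * β * τ m) :=
          mul_le_mul h7 (hφb m) (abs_nonneg _) (inv_pos.2 (hτ0 m)).le
      _ = 2 * β := by
          have := (hτ0 m).ne'
          field_simp
  obtain ⟨ψ, A, B, hψ, hA, hB, hAB, hBA⟩ := pair_limit (fun m => (G m).comp (D (τ m)))
    (fun m => (D (τ m)⁻¹).comp (Gi m))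
    (fun m v => by
      simp only [ContinuousLinearMap.comp_apply]
      rw [hDD _ _ _ (mul_inv_cancel₀ (hτ0 m).ne'), hGGi])
    (fun m v => by
      simp only [ContinuousLinearMap.comp_apply]
      rw [hGiG, hDD _ _ _ (inv_mul_cancel₀ (hτ0 m).ne')]) hAbd hBbd
  have hτψ : Tendsto (fun m => τ (ψ m)) atTop (𝓝 0) := hτt.comp hψ.tendsto_atTop
  refine ⟨A, B, hAB, hBA, ?_, ?_⟩
  · refine hccl.mem_of_tendsto (hA u) (Eventually.of_forall fun m => ?_)
    rw [ContinuousLinearMap.comp_apply]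
    refine hGcl _ _ ?_
    have h1 : D (τ (ψ m)) u = τ (ψ m) • u := by
      rw [hDa, hφu]; module
    rw [h1]
    exact hC.cl_smul hu (hτ0 _).le
  · intro v hv
    have hφB : ∀ m, φ ((D (τ m)⁻¹).comp (Gi m) v) = (τ m)⁻¹ * φ (Gi m v) := by
      intro m
      rw [ContinuousLinearMap.comp_apply, hφD]
    have h1 : Tendsto (fun m => φ ((D (τ (ψ m))⁻¹).comp (Gi (ψ m)) v)) atTop (𝓝 (φ (B v))) :=
      (φ.continuous.tendsto _).comp (hB v)
    have h2 : 0 ≤ φ (B v) := by
      refine ge_of_tendsto h1 (Eventually.of_forall fun m => ?_)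
      rw [hφB]
      exact mul_nonneg (inv_pos.2 (hτ0 _)).le (hφ0 _ (hGicl _ _ hv))
    refine ⟨h2, ?_⟩
    -- the limit of u_m
    have h3 : Tendsto (fun m => Gi (ψ m) v) atTop (𝓝 (B v - φ (B v) • u)) := by
      have h4 : Tendsto (fun m => (D (τ (ψ m))⁻¹).comp (Gi (ψ m)) v -
          ((1 - τ (ψ m)) * φ ((D (τ (ψ m))⁻¹).comp (Gi (ψ m)) v)) • u) atTop
          (𝓝 (B v - ((1 - 0) * φ (B v)) • u)) :=
        (hB v).sub (((tendsto_const_nhds.sub hτψ).mul h1).smul_const u)
      rw [sub_zero, one_mul] at h4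
      refine h4.congr fun m => ?_
      rw [hφB, ContinuousLinearMap.comp_apply, hDa]
      have h5 := (hτ0 (ψ m)).ne'
      have h6 : (1 - τ (ψ m)) * ((τ (ψ m))⁻¹ * φ (Gi (ψ m) v)) =
          ((τ (ψ m))⁻¹ - 1) * φ (Gi (ψ m) v) := by
        field_simp
      rw [h6, add_sub_cancel_right]
    have h4 : B v - φ (B v) • u ∈ closure C :=
      hccl.mem_of_tendsto h3 (Eventually.of_forall fun m => hGicl _ _ hv)
    have h5 : φ (B v - φ (B v) • u) = 0 := by
      rw [map_sub, map_smul, hφu]; simp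
    refine hccl.mem_of_tendsto (hA _) (Eventually.of_forall fun m => ?_)
    rw [ContinuousLinearMap.comp_apply]
    refine hGcl _ _ ?_
    rw [hDa, h5, mul_zero, zero_smul, add_zero]
    exact h4

end large

theorem cd1 (zom : ZomStmt) (lin : LinStmt) : Cd1Stmt := by
  classical
  intro n C Γ h hirr K hK hn w hw l y hy
  have hC : PCone C := h.toPCone
  have hul := h.hul
  have hwc : ∀ i, w i ∈ closure C := fun i => hul.lamCl _ (hw.2 i)
  set x : V n := ∑ i ∈ Finset.univ.erase l, w i with hxdef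
  have hx : x ∈ closure C := hC.cl_sum fun i _ => hwc i
  have hxe : ∀ c : Fin K → ℝ, c l = 0 → (∀ i, i ≠ l → c i = 1) → x = ∑ i, c i • w i := by
    intro c h1 h2
    rw [← Finset.add_sum_erase Finset.univ _ (Finset.mem_univ l), h1, zero_smul, zero_add]
    refine Finset.sum_congr rfl fun i hi => ?_
    rw [h2 i (Finset.ne_of_mem_erase hi), one_smul]
  have hxC : x ∉ C := by
    rw [hxe (fun i => if i = l then 0 else 1) (by simp) (fun i hi => by simp [hi])]
    refine hw.1.bd _ (fun i => ?_) ⟨l, by simp⟩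
    split_ifs <;> norm_num
  have hsum : ∀ t : ℝ, x + t • w l = ∑ i, (if i = l then t else 1) • w i := by
    intro t
    rw [← Finset.add_sum_erase Finset.univ _ (Finset.mem_univ l), if_pos rfl, add_comm]
    congr 1
    refine Finset.sum_congr rfl fun i hi => ?_
    rw [if_neg (Finset.ne_of_mem_erase hi), one_smul]
  have hpC : ∀ t : ℝ, 0 < t → x + t • w l ∈ C := by
    intro t ht
    rw [hsum]
    refine hw.1.pos _ fun i => ?_
    split_ifs
    · exact ht
    · exact one_pos
  have hpH : ∀ t : ℝ, 0 < t → x + t • w l ∈ Hull C Γ := by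
    intro t ht
    rw [hsum]
    refine Finset.sum_induction_nonempty _ (fun v => v ∈ Hull C Γ)
      (fun a b ha hb => hul.add a ha b hb) ⟨l, Finset.mem_univ l⟩ fun i _ => ?_
    refine hul.smul _ (hul.lamHull _ (hw.2 i)) _ ?_
    split_ifs
    · exact ht
    · exact one_pos
  have hxw : ∀ i, i ≠ l → x + w i ∈ Face C x := by
    intro i hi
    have h1 : x - w i ∈ closure C := by
      have h2 : x - w i = ∑ j ∈ (Finset.univ.erase l).erase i, w j := by
        rw [hxdef, ← Finset.add_sum_erase (Finset.univ.erase l) _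
          (Finset.mem_erase.2 ⟨hi, Finset.mem_univ i⟩)]
        abel
      rw [h2]
      exact hC.cl_sum fun j _ => hwc j
    refine ⟨1 / 2, by norm_num, ?_, ?_⟩
    · have h2 : x - (1 / 2 : ℝ) • (x + w i) = (1 / 2 : ℝ) • (x - w i) := by module
      rw [h2]
      exact hC.cl_smul h1 (by norm_num)
    · have h2 : x + w i - (1 / 2 : ℝ) • x = (1 / 2 : ℝ) • x + w i := by module
      rw [h2]
      exact hC.cl_add (hC.cl_smul hx (by norm_num)) (hwc i)
  have hwL : ∀ i, i ≠ l → w i ∈ Submodule.span ℝ (Face C x) := by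
    intro i hi
    have h1 : w i = (x + w i) - x := by abel
    rw [h1]
    exact Submodule.sub_mem _ (Submodule.subset_span (hxw i hi))
      (Submodule.subset_span (face_self hC))
  by_cases hr : Module.finrank ℝ (Submodule.span ℝ (Face C x)) ≤ K - 1
  · exact face_small lin hC hw.1 hwc l hwL hr hy
  · exfalso
    have hr' : K ≤ Module.finrank ℝ (Submodule.span ℝ (Face C x)) := by omega
    obtain ⟨φ, hφu, hφ0, hφF, hφL⟩ := form_large hC hx hxC
      (by simpa using hpC 1 one_pos) hn hr'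
    obtain ⟨A, B, hAB, hBA, hAu, hcone⟩ := zoom_pair zom h hx (hwc l) hpC hpH φ hφu hφ0 hφF hφL
    have hP1 : ∀ v, LinearMap.smulRight (φ.toLinearMap.comp B.toLinearMap) (A (w l))
        (LinearMap.smulRight (φ.toLinearMap.comp B.toLinearMap) (A (w l)) v) =
        LinearMap.smulRight (φ.toLinearMap.comp B.toLinearMap) (A (w l)) v := by
      intro v
      simp only [LinearMap.smulRight_apply, LinearMap.comp_apply, ContinuousLinearMap.coe_coe,
        map_smul, hBA, hφu, one_smul]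
    have hP2 : ∀ v ∈ closure C,
        LinearMap.smulRight (φ.toLinearMap.comp B.toLinearMap) (A (w l)) v ∈ closure C ∧
        v - LinearMap.smulRight (φ.toLinearMap.comp B.toLinearMap) (A (w l)) v ∈ closure C := by
      intro v hv
      obtain ⟨h2, h3⟩ := hcone v hv
      simp only [LinearMap.smulRight_apply, LinearMap.comp_apply, ContinuousLinearMap.coe_coe]
      refine ⟨hC.cl_smul hAu h2, ?_⟩
      rwa [map_sub, map_smul, hAB] at h3
    rcases hirr _ hP1 hP2 with h1 | h1
    · have h2 := h1 (A (w l))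
      simp only [LinearMap.smulRight_apply, LinearMap.comp_apply, ContinuousLinearMap.coe_coe, hBA,
        hφu, one_smul] at h2
      have h3 := hBA (w l)
      rw [h2, map_zero] at h3
      rw [← h3, map_zero] at hφu
      exact zero_ne_one hφu
    · obtain ⟨i, hi⟩ : ∃ i : Fin K, i ≠ l := by
        have : Nontrivial (Fin K) := Fin.nontrivial_iff_two_le.2 hK
        exact exists_ne l
      have hφi : φ (w i) = 0 := by
        have h2 := hφF _ (hxw i hi)
        rwa [map_add, hφF x (face_self hC), zero_add] at h2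
      have h2 := h1 (A (w i))
      simp only [LinearMap.smulRight_apply, LinearMap.comp_apply, ContinuousLinearMap.coe_coe, hBA,
        hφi, zero_smul] at h2
      have h3 := hBA (w i)
      rw [← h2, map_zero] at h3
      exact hul.lamNe _ (hw.2 i) h3.symm

end Pool.Agent.PFS.H32
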